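import Pool.Agent.H31.DP.Targets

/-!
# The major arcs for pairs (MJ)
-/

set_option autoImplicit false

open Finset Filter Topology

namespace Pool.Agent.H96.DP

open Pool.Agent.H31.DP

theorem abs_fm_le {r : ℕ} (β : Fin r → ℤ) (δ : Fin r → ℕ) (n : ℕ) : |fm β δ n| ≤ 1 := by
  unfold fm
  rw [Finset.abs_prod]
  refine Finset.prod_le_one (fun i _ => abs_nonneg _) fun i _ => ?_
  rw [abs_pow]
  refine pow_le_one₀ (abs_nonneg _) ?_
  have h := ArithmeticFunction.abs_moebius_le_one (n := ((n : ℤ) + β i).toNat)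
  exact_mod_cast h

theorem pf_MJ (hM1 : StatementM1) (hM2 : StatementM2) : StatementMJ := by
  classical
  intro r β δ L ε ρ hP hε hρ
  rcases Nat.eq_zero_or_pos L with hL | hL
  · refine ⟨1, fun x y hx hxy => ?_⟩
    have hempty : (Finset.Icc x y).filter (fun N : ℕ =>
        ∃ θ : ℝ, ¬ Minor L N θ ∧ ε * N < ‖Sm β δ N θ‖) = ∅ := by
      refine Finset.filter_eq_empty_iff.2 fun N _ => ?_
      rintro ⟨θ, h1, -⟩
      refine h1 fun q hq1 hq2 => ?_
      omega
    have hlog : 0 ≤ Real.log ((y : ℝ) / x) := by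
      refine Real.log_nonneg ?_
      rw [le_div_iff₀ (by exact_mod_cast hx)]
      exact_mod_cast hxy
    have h0 : (0 : ℝ) ≤ ρ * Real.log ((y : ℝ) / x) := by positivity
    have hz : ∑ N ∈ (Finset.Icc x y).filter (fun N : ℕ =>
        ∃ θ : ℝ, ¬ Minor L N θ ∧ ε * N < ‖Sm β δ N θ‖), (1 / (N : ℝ)) = 0 := by
      rw [hempty, Finset.sum_empty]
    rw [hz]
    exact h0
  · have hLR : (1 : ℝ) ≤ L := by exact_mod_cast hL
    obtain ⟨D, hD⟩ : ∃ D : ℝ, D = 1 + 2 * Real.pi * L := ⟨_, rfl⟩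
    have hD1 : 1 ≤ D := by
      rw [hD]
      have := Real.pi_pos
      nlinarith
    have hD0 : 0 < D := by linarith
    obtain ⟨J, hJ⟩ : ∃ J : ℕ, J = ⌈4 * D / ε⌉₊ + 1 := ⟨_, rfl⟩
    have hJ0 : 0 < J := by omega
    have hJR : 4 * D / ε ≤ J := by
      rw [hJ]
      push_cast
      have := Nat.le_ceil (4 * D / ε)
      linarith
    have hJR' : 4 * D ≤ J * ε := by
      rwa [div_le_iff₀ hε] at hJR
    have hJ0R : (0 : ℝ) < J := by exact_mod_cast hJ0
    obtain ⟨η, hη⟩ : ∃ η : ℝ, η = ε / (4 * D * L) := ⟨_, rfl⟩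
    have hη0 : 0 < η := by rw [hη]; positivity
    have hηL : D * (L * η) = ε / 4 := by
      rw [hη]
      field_simp
    obtain ⟨N0, hN0⟩ : ∃ N0 : ℕ, N0 = ⌈4 * D / ε⌉₊ := ⟨_, rfl⟩
    have hN0R : 4 * D / ε ≤ N0 := by
      rw [hN0]
      exact Nat.le_ceil _
    obtain ⟨K2, hK2⟩ := hM2 r β δ L J η (ρ / 2) hP hJ0 hη0 (by positivity)
    obtain ⟨K3, hK3⟩ : ∃ K3 : ℕ, K3 = ⌈Real.exp (2 * N0 / ρ)⌉₊ := ⟨_, rfl⟩
    refine ⟨max K2 K3, fun x y hx hxy => ?_⟩
    have hx0 : (0 : ℝ) < x := by exact_mod_cast hx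
    have h1 : K2 * x ≤ y := (Nat.mul_le_mul_right x (le_max_left _ _)).trans hxy
    have h2 : K3 * x ≤ y := (Nat.mul_le_mul_right x (le_max_right _ _)).trans hxy
    have hbad := hK2 x y hx h1
    have hlog : (N0 : ℝ) ≤ ρ / 2 * Real.log ((y : ℝ) / x) := by
      have h3 : Real.exp (2 * N0 / ρ) ≤ (y : ℝ) / x := by
        rw [le_div_iff₀ hx0]
        have h4 : Real.exp (2 * N0 / ρ) ≤ K3 := by
          rw [hK3]
          exact Nat.le_ceil _
        have h5 : (K3 : ℝ) * x ≤ y := by exact_mod_cast h2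
        nlinarith
      have h6 : 2 * N0 / ρ ≤ Real.log ((y : ℝ) / x) := by
        rw [Real.le_log_iff_exp_le (lt_of_lt_of_le (Real.exp_pos _) h3)]
        exact h3
      rw [div_le_iff₀ hρ] at h6
      linarith
    have hsub : (Finset.Icc x y).filter (fun N : ℕ =>
        ∃ θ : ℝ, ¬ Minor L N θ ∧ ε * N < ‖Sm β δ N θ‖) ⊆
        (Finset.Icc 1 N0) ∪ (Finset.Icc x y).filter (fun N : ℕ => ∃ q : ℕ, 1 ≤ q ∧ q ≤ L ∧
          ∃ n₀ : ℕ, n₀ < q ∧ ∃ i : ℕ, i ≤ J ∧ η * N <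
            |∑ n ∈ (Finset.Icc 1 (i * N / J)).filter (fun n : ℕ => n ≡ n₀ [MOD q]),
              fm β δ n|) := by
      intro N hN
      rw [Finset.mem_filter, Finset.mem_Icc] at hN
      obtain ⟨⟨hxN, hNy⟩, θ, hθ, hlt⟩ := hN
      rw [Finset.mem_union]
      rcases le_or_gt N N0 with hc | hc
      · left
        rw [Finset.mem_Icc]
        exact ⟨by omega, hc⟩
      · right
        rw [Finset.mem_filter, Finset.mem_Icc]
        refine ⟨⟨hxN, hNy⟩, ?_⟩
        by_contra hcon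
        push Not at hcon
        have hNpos : 0 < N := by omega
        have hNR : (0 : ℝ) < N := by exact_mod_cast hNpos
        have hcN : 4 * D ≤ N * ε := by
          have h7 : (N0 : ℝ) ≤ N := by exact_mod_cast hc.le
          have h8 : 4 * D / ε ≤ N := hN0R.trans h7
          rwa [div_le_iff₀ hε] at h8
        have key := hM1 (fun n => ((fm β δ n : ℝ) : ℂ)) (fun n => by
          rw [Complex.norm_real, Real.norm_eq_abs]
          exact abs_fm_le β δ n) L J N η hL hJ0 hNpos (by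
            intro q hq1 hq2 n₀ hn₀ i hi
            have h9 := hcon q hq1 hq2 n₀ hn₀ i hi
            rw [← Complex.ofReal_sum, Complex.norm_real, Real.norm_eq_abs]
            exact h9) θ hθ
        rw [← hD] at key
        have h10 : ‖Sm β δ N θ‖ ≤ D * (L * η * N + N / J + 1) := key
        have h11 : D * (N / J) ≤ ε / 4 * N := by
          rw [← mul_div_assoc, div_le_iff₀ hJ0R]
          nlinarith
        have h12 : D * (L * η * N) = ε / 4 * N := by
          rw [← hηL]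
          ring
        nlinarith
    calc ∑ N ∈ (Finset.Icc x y).filter (fun N : ℕ =>
          ∃ θ : ℝ, ¬ Minor L N θ ∧ ε * N < ‖Sm β δ N θ‖), (1 / (N : ℝ))
        ≤ ∑ N ∈ (Finset.Icc 1 N0) ∪ (Finset.Icc x y).filter (fun N : ℕ => ∃ q : ℕ, 1 ≤ q ∧
            q ≤ L ∧ ∃ n₀ : ℕ, n₀ < q ∧ ∃ i : ℕ, i ≤ J ∧ η * N <
            |∑ n ∈ (Finset.Icc 1 (i * N / J)).filter (fun n : ℕ => n ≡ n₀ [MOD q]),
              fm β δ n|), (1 / (N : ℝ)) :=
          Finset.sum_le_sum_of_subset_of_nonneg hsub fun _ _ _ => by positivity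
      _ ≤ ∑ N ∈ Finset.Icc 1 N0, (1 / (N : ℝ)) + ∑ N ∈ (Finset.Icc x y).filter (fun N : ℕ =>
            ∃ q : ℕ, 1 ≤ q ∧ q ≤ L ∧ ∃ n₀ : ℕ, n₀ < q ∧ ∃ i : ℕ, i ≤ J ∧ η * N <
            |∑ n ∈ (Finset.Icc 1 (i * N / J)).filter (fun n : ℕ => n ≡ n₀ [MOD q]),
              fm β δ n|), (1 / (N : ℝ)) := by
          have h13 := Finset.sum_union_inter (s₁ := Finset.Icc 1 N0)
            (s₂ := (Finset.Icc x y).filter (fun N : ℕ => ∃ q : ℕ, 1 ≤ q ∧
            q ≤ L ∧ ∃ n₀ : ℕ, n₀ < q ∧ ∃ i : ℕ, i ≤ J ∧ η * N <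
            |∑ n ∈ (Finset.Icc 1 (i * N / J)).filter (fun n : ℕ => n ≡ n₀ [MOD q]),
              fm β δ n|)) (f := fun N : ℕ => (1 / (N : ℝ)))
          rw [← h13]
          refine le_add_of_nonneg_right (Finset.sum_nonneg fun _ _ => by positivity)
      _ ≤ N0 + ρ / 2 * Real.log ((y : ℝ) / x) := by
          refine add_le_add ?_ hbad
          calc ∑ N ∈ Finset.Icc 1 N0, (1 / (N : ℝ)) ≤ ∑ N ∈ Finset.Icc 1 N0, (1 : ℝ) := by
                refine Finset.sum_le_sum fun N hN => ?_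
                rw [Finset.mem_Icc] at hN
                have h14 : (1 : ℝ) ≤ N := by exact_mod_cast hN.1
                rw [div_le_one (by linarith)]
                exact h14
            _ = N0 := by simp
      _ ≤ ρ * Real.log ((y : ℝ) / x) := by linarith

end Pool.Agent.H96.DP
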